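import Pool.Agent.H.MP_b3bbc0_lc.B

set_option autoImplicit false

namespace Pool.Agent.Results.MP_b3bbc0_lc.Yes

open Primrec Pool.Agent.H.MP_d04dff_lc Pool.Agent.Lib.helper21.KC Pool.Agent.H.MP_b3bbc0_lc Pointwise

/-- The subtuple of `z` with indices in `S`. -/
def sub (z : Fin 3 → List Bool) (S : Finset (Fin 3)) : List (List Bool) :=
  ((List.finRange 3).filter (· ∈ S)).map z

def mask (S : Finset (Fin 3)) : List ℕ := ((List.finRange 3).filter (· ∈ S)).map Fin.val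

theorem sub_eq (x : Pr) (q : Str) (S : Finset (Fin 3)) :
    sub ![x.1, x.2, q] S = (mask S).map (co (tri x q)) := by
  rw [sub, mask, List.map_map]
  exact List.map_congr_left fun i _ => by fin_cases i <;> rfl

theorem logb_le (n : ℕ) : Real.logb 2 (2 + n) ≤ (2 * lg n : ℕ) := by
  rw [Real.logb_le_iff_le_rpow one_lt_two (by positivity), Real.rpow_natCast]
  have h1 := lt_lg n
  have h2 : 2 ≤ 2 ^ lg n := Nat.le_self_pow (Nat.succ_ne_zero _) 2
  have h3 : 2 + n ≤ 2 ^ (2 * lg n) := by rw [two_mul, pow_add]; nlinarith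
  exact_mod_cast h3

theorem result (U : List Bool →. List Bool) (hU : Opt U) (e : List (List Bool) → List Bool)
    (he : Computable e) (hi : Function.Injective e)
    (F : ℕ → Type) [∀ n, Field (F n)] [∀ n, Fintype (F n)] (a : ℕ)
    (hF : ∀ n, Fintype.card (F n) ≤ 2 ^ (n + a))
    (pt : ∀ n, F n × F n → List Bool) (hpt : ∀ n, Function.Injective (pt n))
    (ln : ∀ n, Set (F n × F n) → List Bool) (hln : ∀ n, Set.InjOn (ln n) {l | IsLine l})
    (E : ℕ → List (List Bool × List Bool)) (hE : Computable E)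
    (hE' : ∀ n x, x ∈ E n ↔ ∃ l p, IsLine l ∧ p ∈ l ∧ x = (ln n l, pt n p)) (k : ℕ) :
    ∃ c : ℝ, ∀ n, ∀ x ∈ E n, ∀ x' ∈ E n,
      (3 * n : ℝ) - k * Real.logb 2 (2 + n) ≤ K U (e [x.1, x.2]) →
      (3 * n : ℝ) - k * Real.logb 2 (2 + n) ≤ K U (e [x'.1, x'.2]) →
      ∀ q, ∃ q', ∀ S : Finset (Fin 3), S.Nonempty →
        |(K U (e (sub ![x.1, x.2, q] S)) : ℝ) - K U (e (sub ![x'.1, x'.2, q'] S))| ≤
          c * Real.logb 2 (2 + (n + K U q : ℕ)) := by
  classical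
  obtain ⟨M₀, hM₀⟩ : ∃ M : List (List ℕ), ∀ S, mask S ∈ M :=
    ⟨(Finset.univ : Finset (Finset (Fin 3))).toList.map mask, fun S =>
      List.mem_map_of_mem (by simp)⟩
  obtain ⟨M, hM⟩ : ∃ M, M = [0, 1, 2] :: [0, 1] :: M₀ := ⟨_, rfl⟩
  let vec : Pr × Str → List Str := fun z => M.map fun S => e (S.map (co (tri z.1 z.2)))
  have hv : Computable vec :=
    maps_comp _ (fun S => he.comp ((sel_prim S).comp (tri_prim fst snd)).to_comp) M
  have v0 : ∀ z, co (vec z) 0 = e [z.1.1, z.1.2, z.2] := fun z => by simp [vec, hM, tri]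
  have v1 : ∀ z, co (vec z) 1 = e [z.1.1, z.1.2] := fun z => by simp [vec, hM, tri]
  have v2 : ∀ z i (h : i < M.length), co (vec z) i = e (M[i].map (co (tri z.1 z.2))) :=
    fun z i h => by simp [vec, h]
  obtain ⟨Q, c, sQ, iQ, hQ⟩ := clone' (r := M.length) hU (by simp [hM])
    (W := fun n v => ∃ z : Pr × Str, z.1 ∈ E n ∧ v = vec z)
    (Sig.ex ((Sig.ccomp (R := fun (z : (ℕ × List Str) × Pr × Str) (L : List Pr) => z.2.1 ∈ L)
      (Sig.prim (mem_prim.comp (fst.comp (snd.comp fst)) snd)) hE (fst.comp fst)).and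
      (Sig.graph hv snd (snd.comp fst))))
    fun n v v' ⟨z, _, h1⟩ ⟨z', _, h2⟩ h => by
      rw [h1, h2, v0, v0] at h
      have := hi h
      simp only [List.cons.injEq, and_true] at this
      rw [h1, h2, show z = z' from Prod.ext (Prod.ext this.1 this.2.1) this.2.2]
  obtain ⟨c₁, h₁⟩ := tables hU he hi hE sQ M (M.length + 3)
  obtain ⟨c₂, h₂⟩ := bound hU he hE a M
  obtain ⟨D, hD⟩ : ∃ D, D = 6 * a + 2 * k + c + 9 := ⟨_, rfl⟩
  obtain ⟨C, hC⟩ : ∃ C, C = 2 * (c₁ * (D + 1)) + c + c₂ + 2 * k + 3 * a + 2 + K U [] := ⟨_, rfl⟩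
  refine ⟨(2 * (C * (3 * a + 5 + c₂ + 2)) : ℕ), fun n x hx x' hx' r1 r2 q => ?_⟩
  have rn : ∀ y : ℕ, (3 * n : ℝ) - k * Real.logb 2 (2 + n) ≤ y → 3 * n ≤ y + k * (2 * lg n) :=
    fun y h => by
      have := mul_le_mul_of_nonneg_left (logb_le n) (Nat.cast_nonneg (α := ℝ) k)
      exact_mod_cast (show (3 * n : ℝ) ≤ y + k * (2 * lg n : ℕ) by linarith)
  replace r1 := rn _ r1
  replace r2 := rn _ r2
  let enc : Set (F n × F n) × F n × F n → Pr := fun y => (ln n y.1, pt n y.2)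
  have e1 : ∀ x ∈ E n, ∃ y, (IsLine y.1 ∧ y.2 ∈ y.1) ∧ x = enc y := fun x hx =>
    let ⟨l, p, h1, h2, h3⟩ := (hE' n x).1 hx
    ⟨(l, p), ⟨h1, h2⟩, h3⟩
  have e2 : ¬ Many (2 ^ (3 * (n + a) + 2)) (· ∈ E n) := fun h => by
    obtain ⟨G, h1, h2⟩ := h.rel (fun x y => x = enc y) (fun x hx => let ⟨y, h1, h2⟩ := e1 x hx
      ⟨y, h2, h1⟩) fun _ _ _ _ _ h1 h2 => h1.trans h2.symm
    exact ((h1.trans (Finset.card_le_card fun y hy => Finset.mem_filter.2
      ⟨Finset.mem_univ _, h2 y hy⟩)).trans_lt (flags (hF n))).false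
  obtain ⟨N, hN⟩ : ∃ N, N = (3 * a + 5 + c₂) * (n + K U q + 1) := ⟨_, rfl⟩
  have n1 : n ≤ N := by rw [hN]; nlinarith
  have n2 : lg n ≤ lg N := Nat.succ_le_succ (Nat.log_mono_right n1)
  have n3 := lg_pos N
  obtain ⟨p, γ, p1, p2, -, p4, p5, p6, p7⟩ := hQ n (vec (x, q)) N ⟨(x, q), hx, rfl⟩ n1
    fun i hi => by
      rw [v2 _ i hi]
      have := Nat.mul_le_mul_left c₂ (lg_le n)
      refine (h₂ n e2 x hx _ (List.getElem_mem _) q).trans ?_
      rw [hN]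
      nlinarith
  rw [v1] at p4 p7
  obtain ⟨f, hf⟩ := moves (hF n) (γ := γ) (A := fun y => ∃ j, Q p j (e [(enc y).1, (enc y).2]))
    (Many.rel (p := fun j => j < 2 ^ γ) ⟨Finset.range (2 ^ γ), by simp, by simp⟩
      (fun j y => Q p j (e [(enc y).1, (enc y).2])) (fun j hj => by
        obtain ⟨u, hu⟩ := p5 j hj
        obtain ⟨_, ⟨z, h1, rfl⟩, h2⟩ := p6 j u hu
        obtain ⟨y, h3, h4⟩ := e1 _ h1
        rw [← h2, v1, h4] at hu
        exact ⟨y, hu, h3, j, hu⟩) fun j j' y _ _ h1 h2 => (iQ _ _ _ _ _ h1 h2).2 rfl)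
  generalize hB : 2 ^ (3 * (n + a) + 2 - γ) * (3 * (n + a) + 2) = B at hf
  have b1 : B < 2 ^ (D * lg N) := by
    have h1 : 3 * (n + a) + 2 < 2 ^ (3 * a + 5 + lg n) :=
      lt_of_le_of_lt (by nlinarith) (lin_lt (3 * a + 5) n)
    have h2 : k * (2 * lg n) ≤ 2 * k * lg N := by nlinarith
    have h3 : D * lg N = (6 * a + 8) * lg N + 2 * k * lg N + c * lg N + lg N := by rw [hD]; ring
    have h4 : 6 * a + 8 ≤ (6 * a + 8) * lg N := Nat.le_mul_of_pos_right _ n3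
    dsimp only at p4
    rw [← hB]
    refine (Nat.mul_lt_mul_of_pos_left h1 (by positivity)).trans_le ?_
    rw [← pow_add]
    exact Nat.pow_le_pow_right (by norm_num) (by omega)
  let T := ((Finset.range B ×ˢ Finset.univ).filter fun w : ℕ × Set (F n × F n) × F n × F n =>
    (IsLine w.2.1 ∧ w.2.2 ∈ w.2.1) ∧ ∃ j, Q p j (e [(enc (f w.1 • w.2)).1, (enc (f w.1 • w.2)).2]))
  obtain ⟨y, j, y1, y2⟩ := h₁ (2 ^ (D * lg N)) n B p
    (T.toList.map fun w => (w.1, enc (f w.1 • w.2), enc w.2)) p1.le (by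
      simp only [List.mem_cons, forall_eq_or_imp]
      refine ⟨((n1.trans_lt (lt_lg N)).trans_le (Nat.pow_le_pow_right (by norm_num)
        (by rw [hD]; nlinarith))).le, b1.le, fun z hz => (((p2 z hz).trans_lt (lin_lt c N)).trans_le
          (Nat.pow_le_pow_right (by norm_num) (by rw [hD]; nlinarith))).le⟩)
    (fun z hz => by
      obtain ⟨w, hw, rfl⟩ := List.mem_map.1 hz
      have := Finset.mem_filter.1 (Finset.mem_toList.1 hw)
      exact ⟨(Finset.mem_range.1 (Finset.mem_product.1 this.1).1).le, this.2.2⟩)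
    (fun z hz z' hz' h => by
      obtain ⟨w, hw, rfl⟩ := List.mem_map.1 hz
      obtain ⟨w', hw', rfl⟩ := List.mem_map.1 hz'
      have h1 := (Finset.mem_filter.1 (Finset.mem_toList.1 hw)).2.1.1
      have h2 := (Finset.mem_filter.1 (Finset.mem_toList.1 hw')).2.1.1
      dsimp only [enc] at h ⊢
      rw [← h, (hpt n).eq_iff, (hpt n).eq_iff, (hln n).eq_iff h1 h2]
      exact ⟨((hln n).eq_iff ((f w.1).2 _ h1).1 ((f w.1).2 _ h2).1).trans
        (smul_left_cancel_iff _), smul_left_cancel_iff (f w.1)⟩)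
    (fun z hz => by
      obtain ⟨y, h1, rfl⟩ := e1 z hz
      obtain ⟨i, h2, h3⟩ := hf y h1
      exact ⟨_, List.mem_map_of_mem (Finset.mem_toList.2 (show (i, y) ∈ T from Finset.mem_filter.2
        ⟨Finset.mem_product.2 ⟨Finset.mem_range.2 h2, Finset.mem_univ _⟩, h1, h3⟩)), rfl⟩) x' hx'
  have l1 : c₁ * lg (2 ^ (D * lg N)) ≤ c₁ * (D + 1) * lg N := by
    rw [lg_pow, mul_assoc]
    exact Nat.mul_le_mul_left _ (by nlinarith)
  have l2 := (y2 [0, 1] (by simp [hM]) []).1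
  have l3 := h₂ n e2 x hx [0, 1] (by simp [hM]) []
  obtain ⟨_, ⟨z, -, rfl⟩, z1, z2⟩ := p7 j _ (c₁ * lg (2 ^ (D * lg N)) + c₂ * lg n +
    k * (2 * lg n) + 3 * a + 2 + K U []) y1 (by
      simp only [tri, co, List.map_cons, List.map_nil, List.getD_cons_zero, List.getD_cons_succ]
        at l2 l3
      dsimp only
      omega)
  rw [v1] at z1
  have z3 := hi z1
  simp only [List.cons.injEq, and_true] at z3
  obtain rfl : z.1 = y := Prod.ext z3.1 z3.2
  refine ⟨z.2, fun S _ => ?_⟩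
  have m1 : mask S ∈ M := by simp [hM, hM₀]
  obtain ⟨i, i1, i2⟩ := List.mem_iff_getElem.1 m1
  have z4 := z2 i i1
  have z5 := y2 _ m1 z.2
  rw [v2 _ i i1, v2 _ i i1, i2] at z4
  have l4 : C * lg N ≤ C * (3 * a + 5 + c₂ + 2) * lg (n + K U q) := by
    rw [mul_assoc, hN]
    exact Nat.mul_le_mul_left _ (lg_lin _ _)
  have l5 : C * lg N = 2 * (c₁ * (D + 1) * lg N) + c * lg N + c₂ * lg N + k * (2 * lg N) +
      (3 * a + 2 + K U []) * lg N := by rw [hC]; ring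
  have l6 := Nat.mul_le_mul_left c₂ n2
  have l7 := Nat.mul_le_mul_left k (Nat.mul_le_mul_left 2 n2)
  have l8 : 3 * a + 2 + K U [] ≤ (3 * a + 2 + K U []) * lg N := Nat.le_mul_of_pos_right _ n3
  rw [sub_eq, sub_eq]
  dsimp only at z4
  exact abs_real (by omega) (by omega)

end Pool.Agent.Results.MP_b3bbc0_lc.Yes
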